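import Pool.Agent.H12.UT.Targets2

/-!
# Specialisation at the point (1, 1, 1)
-/

open Polynomial
open Pool.Agent.H12.UT

namespace Pool.Agent.H50.UT

/-- a line through `(1,1,1)` on which a given polynomial does not vanish identically -/
lemma SP_line (D : MvPolynomial (Fin 3) ℚ) (hD : D ≠ 0) :
    ∃ th : MvPolynomial (Fin 3) ℚ →+* ℚ[X], th D ≠ 0 ∧
      ∀ c, (th c).coeff 0 = MvPolynomial.eval (fun _ => 1) c := by
  obtain ⟨w, hw⟩ : ∃ w : Fin 3 → ℚ, MvPolynomial.eval w D ≠ 0 := by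
    by_contra h
    push Not at h
    exact hD (MvPolynomial.funext fun x => by rw [h x, map_zero])
  set f : Fin 3 → ℚ[X] := fun i => C 1 + C (w i - 1) * X with hf
  refine ⟨(MvPolynomial.eval₂Hom C f), ?_, ?_⟩
  · intro h0
    apply hw
    have h1 : ∀ c, (MvPolynomial.eval₂Hom C f c).eval 1 = MvPolynomial.eval w c := by
      intro c
      have h2 : (evalRingHom (1 : ℚ)).comp (MvPolynomial.eval₂Hom C f) = MvPolynomial.eval w := by
        apply MvPolynomial.ringHom_ext
        · intro r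
          simp
        · intro i
          simp [hf]
      exact congrArg (fun g => g c) h2
    rw [← h1 D, h0, eval_zero]
  · intro c
    have h2 : (evalRingHom (0 : ℚ)).comp (MvPolynomial.eval₂Hom C f) =
        MvPolynomial.eval (fun _ => (1 : ℚ)) := by
      apply MvPolynomial.ringHom_ext
      · intro r
        simp
      · intro i
        simp [hf]
    rw [coeff_zero_eq_eval_zero]
    exact congrArg (fun g => g c) h2

theorem pf_SP1 : T_SP1 := by
  intro c hc hsq
  obtain ⟨r, hr⟩ := hsq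
  obtain ⟨A, D, hD0, hAD⟩ := IsFractionRing.div_surjective (A := MvPolynomial (Fin 3) ℚ) r
  have hD : D ≠ 0 := nonZeroDivisors.ne_zero hD0
  have hinj : Function.Injective (algebraMap (MvPolynomial (Fin 3) ℚ) Kap) :=
    IsFractionRing.injective _ _
  have hDK : algebraMap (MvPolynomial (Fin 3) ℚ) Kap D ≠ 0 := by
    intro h
    exact hD (hinj (by rw [h, map_zero]))
  have hR : c * D ^ 2 = A ^ 2 := by
    apply hinj
    rw [map_mul, map_pow, map_pow, hr, ← hAD]
    field_simp
  obtain ⟨th, h1, h2⟩ := SP_line D hD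
  have h3 : th c * th D ^ 2 = th A ^ 2 := by rw [← map_pow, ← map_pow, ← map_mul, hR]
  apply hc
  by_cases hc0 : MvPolynomial.eval (fun _ => (1 : ℚ)) c = 0
  · rw [hc0]
    exact ⟨0, by simp⟩
  have h4 : (th c).trailingCoeff = MvPolynomial.eval (fun _ => (1 : ℚ)) c := by
    have h5 : (th c).coeff 0 ≠ 0 := by rw [h2]; exact hc0
    have h6 : (th c).natTrailingDegree = 0 := by
      rw [← Nat.le_zero]
      exact natTrailingDegree_le_of_ne_zero h5
    rw [trailingCoeff, h6, h2]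
  have h7 : MvPolynomial.eval (fun _ => (1 : ℚ)) c * (th D).trailingCoeff ^ 2 =
      (th A).trailingCoeff ^ 2 := by
    rw [← h4, sq, sq, ← trailingCoeff_mul, ← trailingCoeff_mul, ← trailingCoeff_mul, ← sq, ← sq,
      h3]
  have h8 : (th D).trailingCoeff ≠ 0 := by
    rw [Ne, trailingCoeff_eq_zero]
    exact h1
  refine ⟨(th A).trailingCoeff / (th D).trailingCoeff, ?_⟩
  rw [div_mul_div_comm, eq_div_iff (mul_ne_zero h8 h8), ← sq, ← sq, h7]

/-- no solutions over the polynomial ring -/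
lemma SP_descent (c0 : ℚ) (h : ∀ x y z : ℚ, x ^ 2 - c0 * y ^ 2 = 2 * z ^ 2 →
      x = 0 ∧ y = 0 ∧ z = 0) (c : ℚ[X]) (hc : c.coeff 0 = c0) :
    ∀ (n : ℕ) (A B D : ℚ[X]), D ≠ 0 → D.natDegree ≤ n → A ^ 2 - c * B ^ 2 = 2 * D ^ 2 →
      False := by
  intro n
  induction n with
  | zero =>
    intro A B D hD hn hE
    have h1 := congrArg (fun p => coeff p 0) hE
    simp only [coeff_sub, mul_coeff_zero, sq, coeff_ofNat_zero, hc] at h1
    have h2 := h (A.coeff 0) (B.coeff 0) (D.coeff 0) (by linear_combination h1)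
    have h3 := eq_C_of_natDegree_le_zero hn
    rw [h2.2.2, C_0] at h3
    exact hD h3
  | succ n ih =>
    intro A B D hD hn hE
    have h1 := congrArg (fun p => coeff p 0) hE
    simp only [coeff_sub, mul_coeff_zero, sq, coeff_ofNat_zero, hc] at h1
    have h2 := h (A.coeff 0) (B.coeff 0) (D.coeff 0) (by linear_combination h1)
    obtain ⟨A1, rfl⟩ := X_dvd_iff.mpr h2.1
    obtain ⟨B1, rfl⟩ := X_dvd_iff.mpr h2.2.1
    obtain ⟨D1, rfl⟩ := X_dvd_iff.mpr h2.2.2
    have hD1 : D1 ≠ 0 := by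
      rintro rfl
      exact hD (mul_zero _)
    refine ih A1 B1 D1 hD1 ?_ ?_
    · rw [natDegree_X_mul hD1] at hn
      omega
    · have hX : (X : ℚ[X]) ^ 2 ≠ 0 := pow_ne_zero _ X_ne_zero
      apply mul_left_cancel₀ hX
      linear_combination hE

theorem pf_SP2 : T_SP2 := by
  intro c hc hnv
  obtain ⟨x, y, hxy⟩ := hnv
  obtain ⟨A, D, hD0, hAD⟩ := IsFractionRing.div_surjective (A := MvPolynomial (Fin 3) ℚ) x
  obtain ⟨B, G, hG0, hBG⟩ := IsFractionRing.div_surjective (A := MvPolynomial (Fin 3) ℚ) y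
  have hD : D ≠ 0 := nonZeroDivisors.ne_zero hD0
  have hG : G ≠ 0 := nonZeroDivisors.ne_zero hG0
  have hinj : Function.Injective (algebraMap (MvPolynomial (Fin 3) ℚ) Kap) :=
    IsFractionRing.injective _ _
  have hDK : algebraMap (MvPolynomial (Fin 3) ℚ) Kap D ≠ 0 := by
    intro h
    exact hD (hinj (by rw [h, map_zero]))
  have hGK : algebraMap (MvPolynomial (Fin 3) ℚ) Kap G ≠ 0 := by
    intro h
    exact hG (hinj (by rw [h, map_zero]))
  have hR : (A * G) ^ 2 - c * (B * D) ^ 2 = 2 * (D * G) ^ 2 := by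
    apply hinj
    rw [map_sub, map_mul, map_mul, map_pow, map_pow, map_pow, map_mul, map_mul, map_mul,
      map_ofNat, hxy, ← hAD, ← hBG]
    field_simp
  obtain ⟨th, h1, h2⟩ := SP_line (D * G) (mul_ne_zero hD hG)
  have h3 : th (A * G) ^ 2 - th c * th (B * D) ^ 2 = 2 * th (D * G) ^ 2 := by
    rw [← map_pow, ← map_pow, ← map_pow, ← map_mul, ← map_sub, hR, map_mul, map_ofNat]
  exact SP_descent _ hc (th c) (h2 c) _ _ _ _ h1 le_rfl h3

end Pool.Agent.H50.UT
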